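import Mathlib
import Pool.Agent.R159.SchubE

set_option autoImplicit false

/-!
Nonnegative elementary-monomial expansions of Schubert polynomials.

Variables are `X 0, X 1, …` (`X k` is `x_{k+1}`), permutations of `{1,…,n}` are permutations of `ℕ`
fixing every `k ≥ n` (shifted by one). Definitions (in `Pool/Agent/R159`):
* `w0 n` : the longest element, `i ↦ n - 1 - i` for `i < n`;
* `IsSchubert n w P` : `P` is obtained from `∏_{k<n} X_k^(n-1-k)` at `w0 n` by divided differences
  along descents, ending at `w`;
* `elem i j` : the elementary symmetric polynomial of degree `j` in `X 0, …, X (i-1)`;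
* `sem a = ∏_i elem i (a i)`.
-/

namespace Pool.Agent.Results.MP_c3854d_co.NonnegSEM

open R159.Schub MvPolynomial

/-- Every `w ∈ S_n` has exactly one Schubert polynomial; and if it has a nonnegative expansion in
standard elementary monomials, then this expansion is a single standard elementary monomial with
coefficient one. -/
theorem result :
    (∀ (n : ℕ) (w : Equiv.Perm ℕ), (∀ k, n ≤ k → w k = k) → ∃! P, IsSchubert n w P) ∧
    (∀ (n : ℕ) (w : Equiv.Perm ℕ) (P : MvPolynomial ℕ ℤ), IsSchubert n w P →
      ∀ c : (ℕ →₀ ℕ) →₀ ℤ, (∀ a ∈ c.support, (∀ i, a i ≤ i) ∧ 0 ≤ c a) →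
        P = ∑ a ∈ c.support, C (c a) * sem a →
        ∃ a : ℕ →₀ ℕ, (∀ i, a i ≤ i) ∧ P = sem a ∧ c = Finsupp.single a 1) :=
  ⟨fun _ _ hw => schub_exists hw, fun n w P hP c hc hsum => main n w P hP c hc hsum⟩

end Pool.Agent.Results.MP_c3854d_co.NonnegSEM
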